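import Mathlib

set_option autoImplicit false

namespace Pool.Agent.Results.MP_bef951_gt.NoLift

open Set Metric MeasureTheory Filter Topology
open scoped ContDiff

/-- the base manifold, with the zero Poisson bracket -/
abbrev V (n : ℕ) := Fin n → ℝ

/-- the canonical symplectic form of the cotangent bundle `V n × V n` (position, momentum) -/
def sf {n : ℕ} (u v : V n × V n) : ℝ := ∑ i, (u.2 i * v.1 i - v.2 i * u.1 i)

/-- smooth with smooth inverse -/
def IsDiffeo {E : Type} [NormedAddCommGroup E] [NormedSpace ℝ E] (f : E ≃ₜ E) : Prop :=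
  ContDiff ℝ ∞ f ∧ ContDiff ℝ ∞ f.symm

/-- symplectic diffeomorphisms of the cotangent bundle -/
def IsSymp {n : ℕ} (f : (V n × V n) ≃ₜ (V n × V n)) : Prop :=
  IsDiffeo f ∧ ∀ z u v, sf (fderiv ℝ f z u) (fderiv ℝ f z v) = sf u v

theorem c_surj (e : ℝ) (he : 0 ≤ e) : Function.Surjective fun x : ℝ => x ^ 3 + e * x := by
  intro y
  have h := intermediate_value_Icc (f := fun x : ℝ => x ^ 3 + e * x) (a := -(|y| + 1))
    (b := |y| + 1) (by linarith [abs_nonneg y]) (by fun_prop)
  have h0 := abs_nonneg y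
  have h1 : |y| + 1 ≤ (|y| + 1) ^ 3 := le_self_pow₀ (by linarith) (by norm_num)
  have h2 : 0 ≤ e * (|y| + 1) := by positivity
  obtain ⟨x, -, hx⟩ := h (show y ∈ _ from ⟨by nlinarith [neg_abs_le y], by nlinarith [le_abs_self y]⟩)
  exact ⟨x, hx⟩

noncomputable def c (e : ℝ) (he : 0 ≤ e) : ℝ ≃ₜ ℝ :=
  (StrictMono.orderIsoOfSurjective (fun x : ℝ => x ^ 3 + e * x)
    ((Odd.strictMono_pow (by decide : Odd 3)).add_monotone fun _ _ h => mul_le_mul_of_nonneg_left h he)
    (c_surj e he)).toHomeomorph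

theorem c_apply (e : ℝ) (he : 0 ≤ e) (x : ℝ) : c e he x = x ^ 3 + e * x := rfl

theorem c_diffeo (e : ℝ) (he : 0 < e) : IsDiffeo (c e he.le) := by
  have h : ContDiff ℝ ∞ (c e he.le) := by
    change ContDiff ℝ ∞ fun x : ℝ => x ^ 3 + e * x
    fun_prop
  refine ⟨h, (c e he.le).contDiff_symm_deriv (f' := fun x => 3 * x ^ 2 + e)
    (fun x => by positivity) (fun x => ?_) h⟩
  have := (hasDerivAt_pow 3 x).add ((hasDerivAt_id x).const_mul e)
  simp only [mul_one] at this
  exact this

noncomputable def B (n : ℕ) : LinearMap.BilinForm ℝ (V n × V n) :=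
  LinearMap.mk₂ ℝ sf
    (fun a b c => by simp only [sf, ← Finset.sum_add_distrib]; congr; ext i; simp; ring)
    (fun a b c => by simp only [sf, smul_eq_mul, Finset.mul_sum]; congr; ext i; simp; ring)
    (fun a b c => by simp only [sf, ← Finset.sum_add_distrib]; congr; ext i; simp; ring)
    (fun a b c => by simp only [sf, smul_eq_mul, Finset.mul_sum]; congr; ext i; simp; ring)

theorem det_one {n : ℕ} (f : (V n × V n) →L[ℝ] (V n × V n))
    (h : ∀ u v, sf (f u) (f v) = sf u v) : |f.det| = 1 := by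
  let b := Module.finBasis ℝ (V n × V n)
  have k : ∀ u : V n × V n, sf u (u.2, -u.1) = 0 → u = 0 := by
    intro u hu
    have : ∑ i, (u.2 i ^ 2 + u.1 i ^ 2) = 0 := by
      rw [← hu, sf]; congr; ext i; simp; ring
    rw [Finset.sum_eq_zero_iff_of_nonneg fun i _ => by positivity] at this
    ext i
    · have := this i (Finset.mem_univ i); simp; nlinarith [sq_nonneg (u.2 i), sq_nonneg (u.1 i)]
    · have := this i (Finset.mem_univ i); simp; nlinarith [sq_nonneg (u.2 i), sq_nonneg (u.1 i)]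
  have nd : (B n).Nondegenerate := by
    refine ⟨fun u hu => k u (hu _), fun u hu => k u ?_⟩
    have := hu (u.2, -u.1)
    change sf _ _ = 0 at this
    rw [← neg_eq_zero, ← this, sf, sf, ← Finset.sum_neg_distrib]
    congr; ext i; ring
  have h1 := (LinearMap.BilinForm.nondegenerate_iff_det_ne_zero b).1 nd
  have h2 : (B n).comp f.toLinearMap f.toLinearMap = B n := by
    refine LinearMap.ext fun u => LinearMap.ext fun v => h u v
  have h3 := congrArg (fun X => (LinearMap.BilinForm.toMatrix b X).det) h2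
  simp only [LinearMap.BilinForm.toMatrix_comp b b, Matrix.det_mul, Matrix.det_transpose,
    LinearMap.det_toMatrix] at h3
  have h4 : LinearMap.det f.toLinearMap ^ 2 = 1 := by
    apply mul_right_cancel₀ h1; linarith
  rw [← sq_abs] at h4
  exact (pow_eq_one_iff_of_nonneg (abs_nonneg _) two_ne_zero).1 h4

theorem vol {n : ℕ} {f : (V n × V n) ≃ₜ (V n × V n)} (h : IsSymp f) {A : Set (V n × V n)}
    (hA : MeasurableSet A) : volume (f '' A) = volume A := by
  haveI : (volume : Measure (V n × V n)).IsAddHaarMeasure :=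
    Measure.prod.instIsAddHaarMeasure _ _
  rw [← lintegral_abs_det_fderiv_eq_addHaar_image volume hA (f' := fderiv ℝ f)
    (fun x _ => (h.1.1.differentiable (by simp) x).hasFDerivAt.hasFDerivWithinAt) f.injective.injOn]
  simp [fun z => det_one _ (h.2 z)]

theorem result (n : ℕ) (hn : 0 < n) : ∃ φ : V n ≃ₜ V n,
    (∃ φs : ℕ → V n ≃ₜ V n, (∀ k, IsDiffeo (φs k)) ∧
      TendstoLocallyUniformly (fun k => φs k) φ atTop) ∧
    ¬ ∃ Φ : (V n × V n) ≃ₜ (V n × V n),
      (∃ Φs : ℕ → (V n × V n) ≃ₜ (V n × V n), (∀ k, IsSymp (Φs k)) ∧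
        TendstoLocallyUniformly (fun k => Φs k) Φ atTop) ∧
      ∀ z, (Φ z).1 = φ z.1 := by
  refine ⟨Homeomorph.piCongrRight fun _ => c 0 le_rfl, ⟨fun k => Homeomorph.piCongrRight fun _ =>
    c (1 / (k + 1)) (by positivity), fun k => ?_, ?_⟩, ?_⟩
  · have h := c_diffeo (1 / (k + 1)) (by positivity)
    exact ⟨contDiff_pi.2 fun i => h.1.comp (contDiff_apply ℝ ℝ i),
      contDiff_pi.2 fun i => h.2.comp (contDiff_apply ℝ ℝ i)⟩
  · rw [Metric.tendstoLocallyUniformly_iff]
    intro ε hε x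
    refine ⟨ball 0 (‖x‖ + 1), isOpen_ball.mem_nhds (by simp), ?_⟩
    have := (tendsto_one_div_add_atTop_nhds_zero_nat (𝕜 := ℝ)).mul_const (‖x‖ + 1)
    rw [zero_mul] at this
    filter_upwards [this.eventually (gt_mem_nhds hε)] with k hk y hy
    refine (dist_pi_lt_iff hε).2 fun i => lt_of_le_of_lt ?_ hk
    have h1 : |y i| ≤ ‖x‖ + 1 := (norm_le_pi_norm y i).trans (mem_ball_zero_iff.1 hy).le
    simp only [Homeomorph.piCongrRight_apply, c_apply, Real.dist_eq, zero_mul, add_zero,
      sub_add_cancel_left, abs_neg, abs_mul]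
    rw [abs_of_pos (by positivity)]
    gcongr
  · rintro ⟨Φ, ⟨Φs, hs, ht⟩, hΦ⟩
    obtain ⟨C, hC⟩ := (isCompact_closedBall (0 : V n × V n) 1).exists_bound_of_continuousOn
      Φ.continuous.continuousOn
    have hC0 : 0 ≤ C := (norm_nonneg _).trans (hC 0 (by simp))
    obtain ⟨ε, hε⟩ : ∃ ε : ℝ, ε = 1 / (2 * (C + 1)) := ⟨_, rfl⟩
    have e0 : 0 < ε := by rw [hε]; positivity
    have e1 : ε * (2 * (C + 1)) = 1 := by rw [hε]; field_simp
    have e2 : ε < 1 := by nlinarith
    have e3 : ε ^ 3 ≤ 1 := pow_le_one₀ e0.le e2.le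
    have hu := (tendstoLocallyUniformly_iff_forall_isCompact.1 ht) _
      (isCompact_closedBall (0 : V n × V n) 1)
    obtain ⟨k, hk⟩ := ((Metric.tendstoUniformlyOn_iff.1 hu) (ε ^ 3) (by positivity)).exists
    have sub : Φs k '' (closedBall 0 ε ×ˢ closedBall 0 1) ⊆
        closedBall 0 (2 * ε ^ 3) ×ˢ closedBall 0 (C + 1) := by
      rintro _ ⟨z, ⟨h1, h2⟩, rfl⟩
      rw [mem_closedBall_zero_iff] at h1 h2
      have hz : z ∈ closedBall (0 : V n × V n) 1 :=
        mem_closedBall_zero_iff.2 (max_le (h1.trans e2.le) h2)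
      have h3 := hk z hz
      rw [dist_comm, dist_eq_norm] at h3
      have h4 : ‖(Φ z).1‖ ≤ ε ^ 3 := by
        rw [hΦ]
        refine (pi_norm_le_iff_of_nonneg (by positivity)).2 fun i => ?_
        simp only [Homeomorph.piCongrRight_apply, c_apply, zero_mul, add_zero, norm_pow]
        gcongr
        exact (norm_le_pi_norm _ i).trans h1
      have h5 := (norm_snd_le (Φ z)).trans (hC z hz)
      have h6 := norm_fst_le (Φs k z - Φ z)
      have h7 := norm_snd_le (Φs k z - Φ z)
      have h8 := norm_le_norm_add_norm_sub' (Φs k z).1 (Φ z).1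
      have h9 := norm_le_norm_add_norm_sub' (Φs k z).2 (Φ z).2
      simp only [Prod.fst_sub, Prod.snd_sub] at h6 h7
      constructor <;> rw [mem_closedBall_zero_iff] <;> linarith
    have h := measure_mono (μ := volume) sub
    rw [vol (hs k) (measurableSet_closedBall.prod measurableSet_closedBall)] at h
    simp only [Measure.volume_eq_prod, Measure.prod_prod] at h
    rw [Real.volume_pi_closedBall _ e0.le, Real.volume_pi_closedBall _ zero_le_one,
      Real.volume_pi_closedBall _ (by positivity), Real.volume_pi_closedBall _ (by positivity),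
      ← ENNReal.ofReal_mul (by positivity), ← ENNReal.ofReal_mul (by positivity),
      ENNReal.ofReal_le_ofReal_iff (by positivity), ← mul_pow, ← mul_pow, Fintype.card_fin,
      pow_le_pow_iff_left₀ (by positivity) (by positivity) hn.ne'] at h
    have : 2 * (2 * ε ^ 3) * (2 * (C + 1)) = 4 * ε ^ 2 := by
      rw [show 2 * (2 * ε ^ 3) * (2 * (C + 1)) = 4 * ε ^ 2 * (ε * (2 * (C + 1))) by ring, e1, mul_one]
    nlinarith

end Pool.Agent.Results.MP_bef951_gt.NoLift
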